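import Mathlib

/-!
# T-REL, R5: the cone property for the quotient by a homogeneous ideal
-/

set_option autoImplicit false

namespace Pool.Agent.Helper34.Rel

open Polynomial

/-- substituting `X * t_l` in a homogeneous polynomial -/
theorem aeval_scale {K : Type} [Field K] {N : ℕ} (t : Fin N → K) (d : ℕ)
    (f : MvPolynomial (Fin N) K) (hf : f.IsHomogeneous d) :
    MvPolynomial.aeval (fun l => (X : K[X]) * C (t l)) f = X ^ d * C (MvPolynomial.aeval t f) := by
  classical
  have h1 : MvPolynomial.aeval (fun l => (X : K[X]) * C (t l)) f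
      = ∑ m ∈ f.support, C (f.coeff m) * ∏ l, ((X : K[X]) * C (t l)) ^ m l := by
    rw [MvPolynomial.aeval_def, MvPolynomial.eval₂_eq']
    rfl
  have h2 : MvPolynomial.aeval t f = ∑ m ∈ f.support, f.coeff m * ∏ l, (t l) ^ m l := by
    rw [MvPolynomial.aeval_def, MvPolynomial.eval₂_eq']
    rfl
  rw [h1, h2, map_sum, Finset.mul_sum]
  refine Finset.sum_congr rfl fun m hm => ?_
  have hd : ∑ l, m l = d := by
    have := hf (MvPolynomial.mem_support_iff.mp hm)
    rw [Finsupp.weight_apply] at this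
    simpa [Finsupp.sum_fintype] using this
  rw [map_mul, map_prod]
  have h3 : ∏ l, ((X : K[X]) * C (t l)) ^ m l = X ^ d * ∏ l, C (t l) ^ m l := by
    rw [← hd, ← Finset.prod_pow_eq_pow_sum, ← Finset.prod_mul_distrib]
    exact Finset.prod_congr rfl fun l _ => mul_pow _ _ _
  rw [h3]
  simp only [map_pow]
  ring

/-- **R5.** the cone property for the quotient by a homogeneous ideal -/
theorem cone_of_homogeneous {K : Type} [Field K] {N : ℕ}
    (I : Ideal (MvPolynomial (Fin N) K))
    (hI : ∀ f ∈ I, ∀ d : ℕ, MvPolynomial.homogeneousComponent d f ∈ I)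
    (φ : (MvPolynomial (Fin N) K ⧸ I) →ₐ[K] K) :
    ∃ ψ : (MvPolynomial (Fin N) K ⧸ I) →ₐ[K] K[X], ∀ l,
      ψ (Ideal.Quotient.mk I (MvPolynomial.X l)) =
        X * C (φ (Ideal.Quotient.mk I (MvPolynomial.X l))) := by
  classical
  set t : Fin N → K := fun l => φ (Ideal.Quotient.mk I (MvPolynomial.X l)) with ht
  have hφ : ∀ f : MvPolynomial (Fin N) K, MvPolynomial.aeval t f = φ (Ideal.Quotient.mk I f) := by
    intro f
    have h : (φ.comp (Ideal.Quotient.mkₐ K I)) = MvPolynomial.aeval t := by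
      apply MvPolynomial.algHom_ext
      intro l
      simp [ht]
    rw [← h]
    rfl
  have hz : ∀ f : MvPolynomial (Fin N) K, f ∈ I →
      MvPolynomial.aeval (fun l => (X : K[X]) * C (t l)) f = 0 := by
    intro f hf
    rw [← MvPolynomial.sum_homogeneousComponent f, map_sum]
    refine Finset.sum_eq_zero fun d _ => ?_
    rw [aeval_scale t d _ (MvPolynomial.homogeneousComponent_isHomogeneous d f), hφ,
      Ideal.Quotient.eq_zero_iff_mem.mpr (hI f hf d), map_zero, map_zero, mul_zero]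
  refine ⟨Ideal.Quotient.liftₐ I (MvPolynomial.aeval (fun l => (X : K[X]) * C (t l))) hz, ?_⟩
  intro l
  change Ideal.Quotient.liftₐ I (MvPolynomial.aeval (fun l => (X : K[X]) * C (t l))) hz
    ((Ideal.Quotient.mk I) (MvPolynomial.X l)) = _
  rw [Ideal.Quotient.liftₐ_apply, Ideal.Quotient.lift_mk]
  simp [ht]

/-- the classes of the variables generate the quotient -/
theorem adjoin_quotient {K : Type} [Field K] {N : ℕ} (I : Ideal (MvPolynomial (Fin N) K)) :
    Algebra.adjoin K (Set.range fun l : Fin N => Ideal.Quotient.mk I (MvPolynomial.X l)) = ⊤ := by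
  have h1 : (Set.range fun l : Fin N => Ideal.Quotient.mk I (MvPolynomial.X l))
      = (Ideal.Quotient.mkₐ K I) '' (Set.range (MvPolynomial.X : Fin N → MvPolynomial (Fin N) K)) := by
    rw [← Set.range_comp]
    rfl
  rw [h1, ← AlgHom.map_adjoin, MvPolynomial.adjoin_range_X, Algebra.map_top,
    AlgHom.range_eq_top]
  exact Ideal.Quotient.mkₐ_surjective K I

theorem aeval_eq {K : Type} [Field K] {N : ℕ} (t : Fin N → K) (f : MvPolynomial (Fin N) K) :
    MvPolynomial.aeval t f = MvPolynomial.eval t f := by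
  rw [MvPolynomial.aeval_def]
  rfl

/-- the points of the quotient are the zeros of the ideal -/
theorem exists_point {K : Type} [Field K] {N : ℕ} (I : Ideal (MvPolynomial (Fin N) K))
    (t : Fin N → K) (ht : ∀ f ∈ I, MvPolynomial.eval t f = 0) :
    ∃ φ : (MvPolynomial (Fin N) K ⧸ I) →ₐ[K] K,
      ∀ f, φ (Ideal.Quotient.mk I f) = MvPolynomial.eval t f := by
  have hz : ∀ f : MvPolynomial (Fin N) K, f ∈ I → MvPolynomial.aeval t f = 0 := by
    intro f hf
    rw [aeval_eq]
    exact ht f hf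
  refine ⟨Ideal.Quotient.liftₐ I (MvPolynomial.aeval t) hz, fun f => ?_⟩
  rw [Ideal.Quotient.liftₐ_apply, Ideal.Quotient.lift_mk]
  exact aeval_eq t f

/-- density of the points of the cone, in the form used by `exists_nrm` -/
theorem dense_quotient {K : Type} [Field K] {N : ℕ} (I : Ideal (MvPolynomial (Fin N) K))
    (hd : ∀ g, g ∉ I → ∃ t : Fin N → K, (∀ f ∈ I, MvPolynomial.eval t f = 0) ∧
      MvPolynomial.eval t g ≠ 0) (f : MvPolynomial (Fin N) K ⧸ I) (hf : f ≠ 0) :
    ∃ φ : (MvPolynomial (Fin N) K ⧸ I) →ₐ[K] K, φ f ≠ 0 := by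
  obtain ⟨g, rfl⟩ := Ideal.Quotient.mk_surjective f
  have hg : g ∉ I := fun h => hf (Ideal.Quotient.eq_zero_iff_mem.mpr h)
  obtain ⟨t, ht, h⟩ := hd g hg
  obtain ⟨φ, hφ⟩ := exists_point I t ht
  exact ⟨φ, by rw [hφ]; exact h⟩

/-- some coordinate is nonzero -/
theorem exists_coord_ne {K : Type} [Field K] {N : ℕ} (I : Ideal (MvPolynomial (Fin N) K))
    (h : ∃ l, (MvPolynomial.X l : MvPolynomial (Fin N) K) ∉ I) :
    ∃ l, (fun l : Fin N => Ideal.Quotient.mk I (MvPolynomial.X l)) l ≠ 0 := by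
  obtain ⟨l, hl⟩ := h
  exact ⟨l, fun h0 => hl (Ideal.Quotient.eq_zero_iff_mem.mp h0)⟩

end Pool.Agent.Helper34.Rel
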