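import Pool.Agent.Helper83.Rel.Defs2
import Pool.Agent.Helper17.Rel.Scale

/-!
# T-REL, version 2, G2: scaling to unit content at all bad places
-/

set_option autoImplicit false

namespace Pool.Agent.Helper34.Rel

open NumberField Pool.Agent.Helper4.CB Pool.Agent.Helper69.CB Pool.Agent.Helper83.Rel MvPolynomial

/-- **G2.** scaling to unit content at all bad places -/
theorem exists_uc (K : Type) [Field K] [NumberField K]
    (hR1 : ∀ N : ℕ, ∃ J0 : ℕ, ∀ J, J0 ≤ J → ∀ t : Fin N → K, t ≠ 0 → ∃ l : K, l ≠ 0 ∧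
      ∀ p : Pl K, Bad J p → (∀ i, vl p (l * t i) ≤ 1) ∧ ∃ i, vl p (l * t i) = 1) (n N : ℕ) :
    ∃ J0 : ℕ, ∀ J, J0 ≤ J → ∀ f : MvPolynomial (Fin n) K, f ≠ 0 → f.support.card ≤ N →
      ∃ l : K, l ≠ 0 ∧ ∀ p : Pl K, Bad J p → UC p (C l * f) := by
  classical
  choose j hj using hR1
  refine ⟨∑ M ∈ Finset.range (N + 1), j M, fun J hJ f hf hc => ?_⟩
  have hM : j f.support.card ≤ J := by
    refine le_trans ?_ hJ
    exact Finset.single_le_sum (f := j) (fun _ _ => Nat.zero_le _)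
      (Finset.mem_range.mpr (Nat.lt_succ_of_le hc))
  let e := f.support.equivFin
  let t : Fin f.support.card → K := fun i => f.coeff (e.symm i : Fin n →₀ ℕ)
  have ht : t ≠ 0 := by
    intro h0
    apply hf
    ext m
    rw [coeff_zero]
    by_contra hm
    have hms : m ∈ f.support := mem_support_iff.mpr hm
    have h1 := congrFun h0 (e ⟨m, hms⟩)
    simp only [t, Equiv.symm_apply_apply, Pi.zero_apply] at h1
    exact hm h1
  obtain ⟨l, hl, h⟩ := hj f.support.card J hM t ht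
  refine ⟨l, hl, fun p hp => ?_⟩
  obtain ⟨h1, i, h2⟩ := h p hp
  constructor
  · intro m
    rw [coeff_C_mul]
    by_cases hm : m ∈ f.support
    · have h3 := h1 (e ⟨m, hm⟩)
      simp only [t, Equiv.symm_apply_apply] at h3
      exact h3
    · rw [notMem_support_iff.mp hm, mul_zero, map_zero]
      exact zero_le_one
  · exact ⟨(e.symm i : Fin n →₀ ℕ), by rw [coeff_C_mul]; exact h2⟩

/-- **G2** with R1 of helper17 inserted -/
theorem exists_uc' (K : Type) [Field K] [NumberField K] (n N : ℕ) :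
    ∃ J0 : ℕ, ∀ J, J0 ≤ J → ∀ f : MvPolynomial (Fin n) K, f ≠ 0 → f.support.card ≤ N →
      ∃ l : K, l ≠ 0 ∧ ∀ p : Pl K, Bad J p → UC p (C l * f) :=
  exists_uc K (fun N => Pool.Agent.Helper17.Rel.exists_scale K N) n N

end Pool.Agent.Helper34.Rel
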